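import Pool.Agent.H63.Crit.Final

/-!
# MP_02cf79_al: finitely generated `C^{k,Lip}` groups which are not `C^{k+1}` groups

The definitions used in the statement are in `Pool/Agent/H63/Crit/Defs.lean`:

* `DiffI k` is the group of orientation-preserving `C^k` diffeomorphisms of the compact interval
  `I = [0,1]`, as a subgroup of the group of permutations of `I`;
* `IsDiffLipI k g` says that `g` belongs to `Diff₊^{k,Lip}(I)`: it is an orientation-preserving
  `C^k` diffeomorphism of `I` with Lipschitz `k`-th derivative;
* `DiffS k` and `IsDiffLipS k g` are the analogues for the circle `S¹ = ℝ/ℤ` (written with lifts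
  to the line).

The theorem: for every `k ≥ 1` and for both `M = I` and `M = S¹` there is a finitely generated
group of `C^{k,Lip}` diffeomorphisms of `M` which has no injective homomorphism into the group
of `C^{k+1}` diffeomorphisms of `M`.
-/

namespace Pool.Agent.Results.MP_02cf79_al.CritReg

open Set Pool.Agent.H63.Crit

/-- For every `k ≥ 1` there are a finitely generated subgroup `G` of `Diff₊^{k,Lip}([0,1])` such
that no homomorphism `G → Diff₊^{k+1}([0,1])` is injective, and a finitely generated subgroup `G`
of `Diff₊^{k,Lip}(S¹)` such that no homomorphism `G → Diff₊^{k+1}(S¹)` is injective. -/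
theorem result (k : ℕ) (hk : 1 ≤ k) :
    (∃ G : Subgroup (Equiv.Perm (Icc (0:ℝ) 1)), G.FG ∧ (∀ g ∈ G, IsDiffLipI k g) ∧
      ∀ ρ : G →* DiffI (k + 1), ¬ Function.Injective ρ) ∧
    (∃ G : Subgroup (Equiv.Perm UnitAddCircle), G.FG ∧ (∀ g ∈ G, IsDiffLipS k g) ∧
      ∀ ρ : G →* DiffS (k + 1), ¬ Function.Injective ρ) :=
  final k hk

end Pool.Agent.Results.MP_02cf79_al.CritReg
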